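import Pool.Agent.X161.CS.Chk

/-!
# The sphere is not shellable
-/

set_option autoImplicit false

namespace Pool.Agent.X161.CS

open Finset Pool.Agent.H933R3
open Pool.Agent.Helper175.NS (Shell)

/-- the affine map `x ↦ ± x + c` of `ℤ/3` -/
def af (s c : ℕ) (x : Fin 3) : Fin 3 := Fin.ofNat 3 ((if s = 0 then x.val else 2 * x.val) + c)

/-- the transition with code `t` on pairs -/
def ps (t : ℕ) (x : Fin 3 × Fin 3) : Fin 3 × Fin 3 :=
  (af (t % 2) (t / 2 % 3) x.1, af (t % 2) (t / 6 % 3) x.2)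

/-- the four directions -/
def cf (i : Fin 4) (a b : ℕ) : ℕ :=
  if i = 0 then a else if i = 1 then b else if i = 2 then a + b else a + 2 * b

/-- the projections of pairs along the four directions -/
def pr (i : Fin 4) (x : Fin 3 × Fin 3) : Fin 3 := Fin.ofNat 3 (cf i x.1.val x.2.val)

def ps' (i : Fin 4) (t : ℕ) (y : Fin 3) : Fin 3 := af (t % 2) (cf i (t / 2 % 3) (t / 6 % 3)) y

theorem pr_ps : ∀ t : Fin 32, ∀ i : Fin 4, ∀ x : Fin 3 × Fin 3,
    pr i (ps t x) = ps' i t (pr i x) := by decide +kernel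

theorem pr_surj : ∀ i : Fin 4, ∀ y : Fin 3, ∃ x, pr i x = y := by decide +kernel

theorem pr_eq : ∀ x y : Fin 3 × Fin 3, ∃ i, pr i x = pr i y := by decide +kernel

/-- the code of the transition from `u` to `v` -/
def tc (u v : Fin 24) : ℕ := (cN >>> (5 * (24 * (u : ℕ) + (v : ℕ)))) % 32

def psi (u v : Fin 24) (x : Fin 3 × Fin 3) : Fin 3 × Fin 3 := ps (tc u v) x

def psi' (i : Fin 4) (u v : Fin 24) (y : Fin 3) : Fin 3 := ps' i (tc u v) y

/-- the colours near the singular vertices -/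
def cl (a u : Fin 24) : Fin 3 × Fin 3 :=
  let t := (cM >>> (4 * (24 * (a : ℕ) + (u : ℕ)))) % 16
  (Fin.ofNat 3 t, Fin.ofNat 3 (t / 3))

/-- the vertices of the two singular circles -/
def K1 (v : Fin 24) : Prop := Nat.testBit (2 ^ 3 + 2 ^ 6 + 2 ^ 9) (v : ℕ) = true
def K2 (v : Fin 24) : Prop := Nat.testBit (2 ^ 4 + 2 ^ 7 + 2 ^ 10) (v : ℕ) = true
def KK (v : Fin 24) : Prop := K1 v ∨ K2 v

instance (v : Fin 24) : Decidable (K1 v) := by unfold K1; infer_instance
instance (v : Fin 24) : Decidable (K2 v) := by unfold K2; infer_instance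
instance (v : Fin 24) : Decidable (KK v) := by unfold KK; infer_instance

/-- the local conditions on lists -/
def Gd1 (s : List (Fin 24)) : Prop := ∀ u ∈ s, ¬ KK u → ∀ c, psi u u c = c
def Gd2 (s : List (Fin 24)) : Prop :=
  ∀ u ∈ s, ¬ KK u → ∀ v ∈ s, ¬ KK v → ∀ w ∈ s, ¬ KK w → ∀ c, psi v w (psi u v c) = psi u w c
def Gd3 (s : List (Fin 24)) : Prop :=
  ∀ a ∈ s, KK a → ∀ u ∈ s, ¬ KK u → ∀ v ∈ s, ¬ KK v → psi u v (cl a u) = cl a v
def Gd4 (s : List (Fin 24)) : Prop :=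
  ∀ a ∈ s, KK a → ∀ b ∈ s, KK b → ∀ u ∈ s, ¬ KK u → cl a u = cl b u
def Gd5 (s : List (Fin 24)) : Prop :=
  ∀ a ∈ s, KK a → ∀ b ∈ s, KK b → ∀ c ∈ s, KK c → a = b ∨ a = c ∨ b = c
def Gd6 (s : List (Fin 24)) : Prop := ∀ a ∈ s, ∀ b ∈ s, K1 a → ¬ K2 b

instance (s : List (Fin 24)) : Decidable (Gd1 s) := by unfold Gd1; infer_instance
instance (s : List (Fin 24)) : Decidable (Gd2 s) := by unfold Gd2; infer_instance
instance (s : List (Fin 24)) : Decidable (Gd3 s) := by unfold Gd3; infer_instance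
instance (s : List (Fin 24)) : Decidable (Gd4 s) := by unfold Gd4; infer_instance
instance (s : List (Fin 24)) : Decidable (Gd5 s) := by unfold Gd5; infer_instance
instance (s : List (Fin 24)) : Decidable (Gd6 s) := by unfold Gd6; infer_instance

def GoodF (s : List (Fin 24)) : Prop := Gd1 s ∧ Gd2 s ∧ Gd3 s ∧ Gd4 s ∧ Gd5 s ∧ Gd6 s

instance (s : List (Fin 24)) : Decidable (GoodF s) := by unfold GoodF; infer_instance

theorem goodA : ∀ m ∈ LA, GoodF (bF 24 m) := by decide +kernel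
theorem goodB : ∀ m ∈ LB, GoodF (bF 24 m) := by decide +kernel
theorem goodC : ∀ m ∈ LC, GoodF (bF 24 m) := by decide +kernel

theorem goodS : ∀ m ∈ LS, GoodF (bF 24 m) := by
  intro m hm
  rw [LS, List.mem_append, List.mem_append] at hm
  rcases hm with (hm | hm) | hm
  · exact goodA m hm
  · exact goodB m hm
  · exact goodC m hm

theorem c4S : ∀ m ∈ LS, (decF 24 m).card = 4 := by
  intro m hm
  rw [LS, List.mem_append, List.mem_append] at hm
  rcases hm with (hm | hm) | hm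
  · exact c4A m hm
  · exact c4B m hm
  · exact c4C m hm

theorem good_of {m : ℕ} (hm : m ∈ LS) : Good (fun v => K1 v ∨ K2 v) psi cl (decF 24 m) := by
  obtain ⟨h2, h3, h4, h5, h6, -⟩ := goodS m hm
  have hb : ∀ n, n ∈ decF 24 m → n ∈ bF 24 m := fun n hn => mem_bF.2 hn
  exact ⟨c4S m hm, fun u hu hKu => h2 u (hb u hu) hKu,
    fun u hu v hv w hw ku kv kw => h3 u (hb u hu) ku v (hb v hv) kv w (hb w hw) kw,
    fun a ha ka u hu v hv ku kv => h4 a (hb a ha) ka u (hb u hu) ku v (hb v hv) kv,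
    fun a ha b hb' ka kb u hu ku => h5 a (hb a ha) ka b (hb b hb') kb u (hb u hu) ku,
    fun a ha b hb' c hc ka kb kc => h6 a (hb a ha) ka b (hb b hb') kb c (hb c hc) kc⟩

theorem K1_cases : ∀ v : Fin 24, K1 v → v = 3 ∨ v = 6 ∨ v = 9 := by decide +kernel
theorem K2_cases : ∀ v : Fin 24, K2 v → v = 4 ∨ v = 7 ∨ v = 10 := by decide +kernel

theorem pigeon {V : Type} {x y z : V} {K : V → Prop} (h : ∀ v, K v → v = x ∨ v = y ∨ v = z)
    (a b c d : V) (ha : K a) (hb : K b) (hc : K c) (hd : K d) :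
    a = b ∨ a = c ∨ a = d ∨ b = c ∨ b = d ∨ c = d := by
  rcases h a ha with rfl | rfl | rfl <;> rcases h b hb with rfl | rfl | rfl <;>
    rcases h c hc with rfl | rfl | rfl <;> rcases h d hd with rfl | rfl | rfl <;> simp

/-- the steps of the two loops -/
def steps : List (Fin 24 × Fin 24) := [(0, 11), (11, 23), (23, 0), (11, 18), (18, 0)]

theorem steps_ok : ∀ p ∈ steps, ¬ KK p.1 ∧ ¬ KK p.2 ∧
    ∃ m ∈ LS, m.testBit (p.1 : ℕ) = true ∧ m.testBit (p.2 : ℕ) = true := by decide +kernel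

theorem loops : ∀ i : Fin 4, ∀ c : Fin 3,
    ¬ (psi' i 23 0 (psi' i 11 23 (psi' i 0 11 c)) = c ∧
      psi' i 18 0 (psi' i 11 18 (psi' i 0 11 c)) = c) := by decide +kernel

theorem edge1 : ∃ m ∈ LS, m.testBit 3 = true ∧ m.testBit 6 = true := by decide +kernel
theorem edge2 : ∃ m ∈ LS, m.testBit 4 = true ∧ m.testBit 7 = true := by decide +kernel

theorem no_shell (l : List (Finset (Fin 24))) (hl : Shell l)
    (hS : ∀ F, F ∈ l ↔ F ∈ fm 24 LS) : False := by
  have hmem : ∀ m ∈ LS, decF 24 m ∈ l := fun m hm => (hS _).2 (mem_fm.2 ⟨m, hm, rfl⟩)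
  have hmask : ∀ F ∈ l, ∃ m ∈ LS, decF 24 m = F := fun F hF => mem_fm.1 ((hS F).1 hF)
  obtain ⟨i, g, hg⟩ := two_comp K1 K2 psi cl pr psi' l (fun i y => pr_surj i y) pr_eq
    (by
      intro i u v x
      have h32 : tc u v < 32 := Nat.mod_lt _ (by norm_num)
      exact pr_ps ⟨tc u v, h32⟩ i x)
    (pigeon K1_cases) (pigeon K2_cases)
    (by
      intro F hF a ha b hb
      obtain ⟨m, hm, rfl⟩ := hmask F hF
      exact (goodS m hm).2.2.2.2.2 a (mem_bF.2 ha) b (mem_bF.2 hb))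
    (by
      intro F hF
      obtain ⟨m, hm, rfl⟩ := hmask F hF
      exact good_of hm)
    hl
    (by
      obtain ⟨m, hm, h1, h2⟩ := edge1
      exact ⟨decF 24 m, hmem m hm, 3, mem_decF.2 h1, 6, mem_decF.2 h2, by decide, by decide,
        by decide⟩)
    (by
      obtain ⟨m, hm, h1, h2⟩ := edge2
      exact ⟨decF 24 m, hmem m hm, 4, mem_decF.2 h1, 7, mem_decF.2 h2, by decide, by decide,
        by decide⟩)
  have step : ∀ p ∈ steps, g p.2 = psi' i p.1 p.2 (g p.1) := by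
    intro p hp
    obtain ⟨h1, h2, m, hm, h3, h4⟩ := steps_ok p hp
    exact hg (decF 24 m) (hmem m hm) p.1 (mem_decF.2 h3) p.2 (mem_decF.2 h4) h1 h2
  have s1 := step (0, 11) (by simp [steps])
  have s2 := step (11, 23) (by simp [steps])
  have s3 := step (23, 0) (by simp [steps])
  have s4 := step (11, 18) (by simp [steps])
  have s5 := step (18, 0) (by simp [steps])
  simp only at s1 s2 s3 s4 s5
  apply loops i (g 0)
  rw [← s1, ← s2, ← s3, ← s4, ← s5]
  exact ⟨rfl, rfl⟩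

end Pool.Agent.X161.CS
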