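import Pool.Agent.X161.CS.Data

/-!
# Checks: constructibility and the sphere
-/

set_option autoImplicit false

namespace Pool.Agent.X161.CS

open Finset Pool.Agent.H933R3

/-- all facets -/
def LS : List ℕ := (LA ++ LB) ++ LC

theorem shA : shB 24 LA = true := by decide +kernel
theorem shBB : shB 24 LB = true := by decide +kernel
theorem shC : shB 24 LC = true := by decide +kernel
theorem shD : shB 24 LD = true := by decide +kernel
theorem shW : shB 24 LW = true := by decide +kernel

theorem in1 : inB LA LB LD = true := by decide +kernel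
theorem in2 : inB (LA ++ LB) LC LW = true := by decide +kernel

theorem c4A : ∀ m ∈ LA, (decF 24 m).card = 4 := by decide +kernel
theorem c4B : ∀ m ∈ LB, (decF 24 m).card = 4 := by decide +kernel
theorem c4C : ∀ m ∈ LC, (decF 24 m).card = 4 := by decide +kernel
theorem c3D : ∀ m ∈ LD, (decF 24 m).card = 3 := by decide +kernel
theorem c3W : ∀ m ∈ LW, (decF 24 m).card = 3 := by decide +kernel

theorem small : ∀ m ∈ LS, m < 2 ^ 24 := by decide +kernel

theorem ch : chS LS mvs (bdm tt) = true := by decide +kernel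

theorem tt5 : (Pool.Agent.X161.CE.bt tt).length = 3 + 2 := by decide +kernel

theorem sphere : Nonempty ({x : Fin 24 → ℝ | (∀ i, 0 ≤ x i) ∧ ∑ i, x i = 1 ∧
      ∃ σ ∈ fm 24 LS, ∀ i, x i ≠ 0 → i ∈ σ} ≃ₜ
      Metric.sphere (0 : EuclideanSpace ℝ (Fin (3 + 1))) 1) :=
  sphere_of (by norm_num) small tt5 ch

theorem cst : Cst 4 (fm 24 LS) := by
  have hA : Cst 4 (fm 24 LA) := cst_fm (List.cons_ne_nil _ _) shA c4A
  have hB : Cst 4 (fm 24 LB) := cst_fm (List.cons_ne_nil _ _) shBB c4B
  have hC : Cst 4 (fm 24 LC) := cst_fm (List.cons_ne_nil _ _) shC c4C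
  have hD : Cst 3 (fm 24 LD) := cst_fm (List.cons_ne_nil _ _) shD c3D
  have hW : Cst 3 (fm 24 LW) := cst_fm (List.cons_ne_nil _ _) shW c3W
  have hAB := cst_union (by norm_num) hA hB hD (inB_sound in1)
  rw [← fm_append] at hAB
  have h := cst_union (by norm_num) hAB hC hW (inB_sound in2)
  rw [← fm_append] at h
  exact h

end Pool.Agent.X161.CS
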