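import Pool.Agent.Helper175.NS.Section

/-!
# Constructibility
-/

set_option autoImplicit false

namespace Pool.Agent.X161.CS

open Finset
open Pool.Agent.Helper175.NS (Shell)

variable {n : ℕ}

/-- `P` holds for simplices and is closed under gluing along codimension one subcomplexes. -/
def Clo (P : ℕ → Finset (Finset (Fin n)) → Prop) : Prop :=
  (∀ σ : Finset (Fin n), P σ.card {σ}) ∧
  (∀ (k : ℕ) (F₁ F₂ G : Finset (Finset (Fin n))), 1 ≤ k →
    (∀ σ ∈ F₁, σ.card = k) → (∀ σ ∈ F₂, σ.card = k) → P k F₁ → P k F₂ →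
    (∀ γ ∈ G, γ.card = k - 1) →
    (∀ ρ : Finset (Fin n), (∃ γ ∈ G, ρ ⊆ γ) ↔
      (∃ σ ∈ F₁, ∃ τ ∈ F₂, ρ ⊆ σ ∧ ρ ⊆ τ)) →
    P (k - 1) G → P k (F₁ ∪ F₂))

/-- constructible of dimension `k - 1` -/
def Cst (k : ℕ) (F : Finset (Finset (Fin n))) : Prop :=
  (∀ σ ∈ F, σ.card = k) ∧ ∀ P : ℕ → Finset (Finset (Fin n)) → Prop, Clo P → P k F

theorem cst_single (σ : Finset (Fin n)) : Cst σ.card {σ} :=
  ⟨fun τ hτ => by rw [mem_singleton.1 hτ], fun _ h => h.1 σ⟩

theorem cst_union {k : ℕ} {F₁ F₂ G : Finset (Finset (Fin n))} (hk : 1 ≤ k) (h1 : Cst k F₁)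
    (h2 : Cst k F₂) (hG : Cst (k - 1) G)
    (h : ∀ ρ : Finset (Fin n), (∃ γ ∈ G, ρ ⊆ γ) ↔ (∃ σ ∈ F₁, ∃ τ ∈ F₂, ρ ⊆ σ ∧ ρ ⊆ τ)) :
    Cst k (F₁ ∪ F₂) :=
  ⟨fun σ hσ => (mem_union.1 hσ).elim (h1.1 σ) (h2.1 σ),
    fun P hP => hP.2 k F₁ F₂ G hk h1.1 h2.1 (h1.2 P hP) (h2.2 P hP) hG.1 h (hG.2 P hP)⟩

/-- a nonempty part of the boundary of a simplex -/
theorem cst_bd (m : ℕ) : ∀ F : Finset (Fin n), F.card = m → ∀ R ⊆ F, R.Nonempty →
    Cst (m - 1) (R.image (fun y => F.erase y)) := by
  induction m with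
  | zero =>
    intro F hF R hR hne
    rw [card_eq_zero] at hF
    subst hF
    obtain ⟨y, hy⟩ := hne
    exact absurd (hR hy) (notMem_empty y)
  | succ m ih =>
    intro F hF R
    induction R using Finset.induction_on with
    | empty =>
      intro _ hne
      exact absurd hne not_nonempty_empty
    | insert y R hyR ihR =>
      intro hR _
      have hyF : y ∈ F := hR (mem_insert_self _ _)
      have hRF : R ⊆ F := fun z hz => hR (mem_insert_of_mem hz)
      have hcy : (F.erase y).card = m := by rw [card_erase_of_mem hyF, hF]; rfl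
      have hsing : Cst m ({F.erase y} : Finset (Finset (Fin n))) := hcy ▸ cst_single (F.erase y)
      rw [Nat.add_sub_cancel]
      by_cases hne : R.Nonempty
      · have h1 := ihR hRF hne
        rw [Nat.add_sub_cancel] at h1
        have hRy : R ⊆ F.erase y := fun z hz =>
          mem_erase.2 ⟨fun h => hyR (h ▸ hz), hRF hz⟩
        have hG := ih (F.erase y) hcy R hRy hne
        have hm : 1 ≤ m := by
          rw [← hcy, Nat.one_le_iff_ne_zero, card_ne_zero]
          exact hne.mono hRy
        have he : (insert y R).image (fun y => F.erase y) =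
            R.image (fun y => F.erase y) ∪ {F.erase y} := by
          rw [image_insert, insert_eq, union_comm]
        rw [he]
        refine cst_union hm h1 hsing hG (fun ρ => ⟨?_, ?_⟩)
        · rintro ⟨γ, hγ, hρ⟩
          obtain ⟨z, hz, rfl⟩ := mem_image.1 hγ
          refine ⟨F.erase z, mem_image_of_mem _ hz, F.erase y, mem_singleton_self _, ?_, ?_⟩
          · exact hρ.trans (erase_subset_erase z (erase_subset y F))
          · exact hρ.trans (erase_subset z _)
        · rintro ⟨σ, hσ, τ, hτ, h2, h3⟩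
          obtain ⟨z, hz, rfl⟩ := mem_image.1 hσ
          rw [mem_singleton] at hτ
          subst hτ
          refine ⟨(F.erase y).erase z, mem_image_of_mem _ hz, fun w hw => ?_⟩
          exact mem_erase.2 ⟨(mem_erase.1 (h2 hw)).1, h3 hw⟩
      · rw [not_nonempty_iff_eq_empty] at hne
        subst hne
        have he : (insert y (∅ : Finset (Fin n))).image (fun y => F.erase y) = {F.erase y} := by
          simp
        rw [he]
        exact hsing

/-- A shellable complex is constructible. -/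
theorem cst_shell {k : ℕ} (l : List (Finset (Fin n))) (hne : l ≠ []) (hl : Shell l)
    (hk : ∀ σ ∈ l, σ.card = k) : Cst k l.toFinset := by
  induction l with
  | nil => exact absurd rfl hne
  | cons F l ih =>
    by_cases h : l = []
    · subst h
      have : ([F] : List (Finset (Fin n))).toFinset = {F} := by simp
      rw [this, ← hk F (by simp)]
      exact cst_single F
    · have h1 := ih h hl.1 (fun σ hσ => hk σ (List.mem_cons_of_mem _ hσ))
      obtain ⟨G0, hG0⟩ := List.exists_mem_of_ne_nil l h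
      set R : Finset (Fin n) := F.filter (fun y => ∃ H ∈ l, F.erase y ⊆ H) with hR
      obtain ⟨H0, hH0, y0, hy0, -, hy1⟩ := hl.2 G0 hG0
      have hRne : R.Nonempty := ⟨y0, mem_filter.2 ⟨hy0, H0, hH0, hy1⟩⟩
      have hF : F.card = k := hk F (by simp)
      have hG := cst_bd k F hF R (filter_subset _ _) hRne
      have hk1 : 1 ≤ k := by
        rw [← hF, Nat.one_le_iff_ne_zero, card_ne_zero]
        exact ⟨y0, hy0⟩
      have hs : Cst k ({F} : Finset (Finset (Fin n))) := hF ▸ cst_single F
      have he : (F :: l).toFinset = l.toFinset ∪ {F} := by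
        rw [List.toFinset_cons, insert_eq, union_comm]
      rw [he]
      refine cst_union hk1 h1 hs hG (fun ρ => ⟨?_, ?_⟩)
      · rintro ⟨γ, hγ, hρ⟩
        obtain ⟨y, hy, rfl⟩ := mem_image.1 hγ
        obtain ⟨hyF, H, hH, hyH⟩ := mem_filter.1 hy
        exact ⟨H, List.mem_toFinset.2 hH, F, mem_singleton_self _, hρ.trans hyH,
          hρ.trans (erase_subset y F)⟩
      · rintro ⟨σ, hσ, τ, hτ, h2, h3⟩
        rw [mem_singleton] at hτ
        subst hτ
        obtain ⟨H, hH, y, hy, h4, h5⟩ := hl.2 σ (List.mem_toFinset.1 hσ)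
        exact ⟨τ.erase y, mem_image_of_mem _ (mem_filter.2 ⟨hy, H, hH, h5⟩),
          fun w hw => h4 (mem_inter.2 ⟨h3 hw, h2 hw⟩)⟩

/-- The shelling condition in the form of the statement gives a `Shell`. -/
theorem shell_of_get {V : Type} [DecidableEq V] (L : List (Finset V))
    (h : ∀ i j : Fin L.length, i < j → ∃ k : Fin L.length, k < j ∧
      L.get i ∩ L.get j ⊆ L.get k ∩ L.get j ∧ (L.get j \ L.get k).card = 1) :
    ∀ m, m ≤ L.length → Shell (L.take m).reverse := by
  intro m
  induction m with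
  | zero => intro _; simp [Shell]
  | succ m ih =>
    intro hm
    have h1 : L.take (m + 1) = L.take m ++ [L[m]] := by
      rw [List.take_append_getElem]
    rw [h1, List.reverse_append, List.reverse_singleton, List.singleton_append]
    refine ⟨ih (by omega), ?_⟩
    intro G hG
    rw [List.mem_reverse, List.mem_take_iff_getElem] at hG
    obtain ⟨i, hi, rfl⟩ := hG
    have him : i < m := by omega
    obtain ⟨k, hk, h2, h3⟩ := h ⟨i, by omega⟩ ⟨m, by omega⟩ him
    have hkm : (k : ℕ) < m := hk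
    obtain ⟨y, hy⟩ := card_eq_one.1 h3
    have hy1 : y ∈ L[m] \ L.get k := by
      have : y ∈ L.get ⟨m, by omega⟩ \ L.get k := by rw [hy]; exact mem_singleton_self y
      exact this
    rw [mem_sdiff] at hy1
    refine ⟨L[(k : ℕ)], ?_, y, hy1.1, ?_, ?_⟩
    · rw [List.mem_reverse, List.mem_take_iff_getElem]
      exact ⟨k, by omega, rfl⟩
    · intro w hw
      rw [mem_inter] at hw
      have h5 := h2 (mem_inter.2 ⟨hw.2, hw.1⟩)
      have h6 : w ∈ L.get k := (mem_inter.1 h5).1
      exact mem_erase.2 ⟨fun e => hy1.2 (e ▸ h6), hw.1⟩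
    · intro w hw
      rw [mem_erase] at hw
      by_contra hcon
      have h7 : w ∈ L.get ⟨m, by omega⟩ \ L.get k := mem_sdiff.2 ⟨hw.2, hcon⟩
      rw [hy, mem_singleton] at h7
      exact hw.1 h7

end Pool.Agent.X161.CS
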