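import Pool.Agent.Helper175.NS.Section

/-!
# Flat sections over shellable complexes, with arbitrary fibres

The lemmas of `Helper175/NS/Section.lean` for an arbitrary set `X` of colours.
-/

set_option autoImplicit false

namespace Pool.Agent.X161.CS

open Pool.Agent.Helper175.NS (Shell)

/-- a function on vertices compatible with the transition functions `psi` on all members of `l` -/
def Flat {V X : Type} (K : V → Prop) (psi : V → V → X → X) (g : V → X)
    (l : List (Finset V)) : Prop :=
  ∀ F ∈ l, ∀ u ∈ F, ∀ v ∈ F, ¬ K u → ¬ K v → g v = psi u v (g u)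

/-- local conditions on one facet -/
structure Good {V X : Type} (K : V → Prop) (psi : V → V → X → X) (col : V → V → X)
    (F : Finset V) : Prop where
  card : F.card = 4
  refl : ∀ u ∈ F, ¬ K u → ∀ c, psi u u c = c
  coc : ∀ u ∈ F, ∀ v ∈ F, ∀ w ∈ F, ¬ K u → ¬ K v → ¬ K w → ∀ c, psi v w (psi u v c) = psi u w c
  colf : ∀ a ∈ F, K a → ∀ u ∈ F, ∀ v ∈ F, ¬ K u → ¬ K v → psi u v (col a u) = col a v
  cole : ∀ a ∈ F, ∀ b ∈ F, K a → K b → ∀ u ∈ F, ¬ K u → col a u = col b u
  two : ∀ a ∈ F, ∀ b ∈ F, ∀ c ∈ F, K a → K b → K c → a = b ∨ a = c ∨ b = c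

theorem Good.exists_nonK {V X : Type} [DecidableEq V] {K : V → Prop}
    {psi : V → V → X → X} {col : V → V → X} {F : Finset V}
    (h : Good K psi col F) (y : V) : ∃ u ∈ F.erase y, ¬ K u := by
  by_contra hc
  push Not at hc
  have hcard : 2 < (F.erase y).card := by
    have := Finset.pred_card_le_card_erase (a := y) (s := F)
    have h4 := h.card
    omega
  obtain ⟨a, ha, b, hb, c, hc', hab, hac, hbc⟩ := Finset.two_lt_card.1 hcard
  rcases h.two a (Finset.mem_of_mem_erase ha) b (Finset.mem_of_mem_erase hb) c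
    (Finset.mem_of_mem_erase hc') (hc a ha) (hc b hb) (hc c hc') with h1 | h1 | h1
  · exact hab h1
  · exact hac h1
  · exact hbc h1

theorem Good.exists_two {V X : Type} [DecidableEq V] {K : V → Prop}
    {psi : V → V → X → X} {col : V → V → X} {F : Finset V}
    (h : Good K psi col F) (x y : V) :
    ∃ z1 ∈ F, ∃ z2 ∈ F, z1 ≠ z2 ∧ z1 ≠ x ∧ z1 ≠ y ∧ z2 ≠ x ∧ z2 ≠ y := by
  have hcard : 1 < ((F.erase x).erase y).card := by
    have h1 := Finset.pred_card_le_card_erase (a := x) (s := F)
    have h2 := Finset.pred_card_le_card_erase (a := y) (s := F.erase x)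
    have h4 := h.card
    omega
  obtain ⟨a, ha, b, hb, hab⟩ := Finset.one_lt_card.1 hcard
  simp only [Finset.mem_erase] at ha hb
  exact ⟨a, ha.2.2, b, hb.2.2, hab, ha.2.1, ha.1, hb.2.1, hb.1⟩

theorem extend {V X : Type} [DecidableEq V] {K : V → Prop} {psi : V → V → X → X}
    {col : V → V → X} {F : Finset V} {l : List (Finset V)} (hne : ∃ G, G ∈ l)
    (hl : Shell (F :: l)) (hg : Good K psi col F) {g : V → X} (hfl : Flat K psi g l)
    (hCl : ∀ x ∈ F, ∀ y ∈ F, x ≠ y → ¬ K x → ¬ K y → (∀ z ∈ F, z ≠ x → z ≠ y → K z) →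
      ∀ H1 ∈ l, ∀ H2 ∈ l, F.erase x ⊆ H1 → F.erase y ⊆ H2 → g x = psi y x (g y)) :
    ∃ g2 : V → X, Flat K psi g2 (F :: l) ∧ ∀ G ∈ l, ∀ w ∈ G, g2 w = g w := by
  classical
  obtain ⟨G0, hG0⟩ := hne
  obtain ⟨H, hH, x, hxF, -, hxH⟩ := hl.2 G0 hG0
  obtain ⟨u0, hu0, hu0K⟩ := hg.exists_nonK x
  have hu0F : u0 ∈ F := Finset.mem_of_mem_erase hu0
  have hu0x : u0 ≠ x := Finset.ne_of_mem_erase hu0
  have hu0H : u0 ∈ H := hxH hu0
  let g2 : V → X := fun w => if ∃ G ∈ l, w ∈ G then g w else psi u0 w (g u0)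
  have hg2l : ∀ G ∈ l, ∀ w ∈ G, g2 w = g w := fun G hG w hw => by
    have : ∃ G ∈ l, w ∈ G := ⟨G, hG, hw⟩
    simp only [g2, if_pos this]
  have claim : ∀ w ∈ F, ¬ K w → g2 w = psi u0 w (g u0) := by
    intro w hw hwK
    by_cases hex : ∃ G ∈ l, w ∈ G
    · obtain ⟨G, hG, hwG⟩ := hex
      rw [hg2l G hG w hwG]
      obtain ⟨H2, hH2, y, hyF, hy1, hy2⟩ := hl.2 G hG
      have hwy : w ∈ F.erase y := hy1 (Finset.mem_inter.2 ⟨hw, hwG⟩)
      have hwH2 : w ∈ H2 := hy2 hwy
      have hwny : w ≠ y := Finset.ne_of_mem_erase hwy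
      by_cases hyx : y = x
      · subst hyx
        exact hfl H hH u0 hu0H w (hxH hwy) hu0K hwK
      · by_cases hz : ∃ z ∈ F, z ≠ x ∧ z ≠ y ∧ ¬ K z
        · obtain ⟨z, hzF, hzx, hzy, hzK⟩ := hz
          have h1 := hfl H hH u0 hu0H z (hxH (Finset.mem_erase.2 ⟨hzx, hzF⟩)) hu0K hzK
          have h2 := hfl H2 hH2 z (hy2 (Finset.mem_erase.2 ⟨hzy, hzF⟩)) w hwH2 hzK hwK
          rw [h2, h1, hg.coc u0 hu0F z hzF w hw hu0K hzK hwK]
        · push Not at hz
          have hu0y : u0 = y := by
            by_contra hne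
            exact hu0K (hz u0 hu0F hu0x hne)
          have hwx : w = x := by
            by_contra hne
            exact hwK (hz w hw hne hwny)
          subst hu0y
          subst hwx
          exact hCl w hw u0 hu0F (Ne.symm hyx) hwK hu0K hz H hH H2 hH2 hxH hy2
    · simp only [g2, if_neg hex]
  refine ⟨g2, ?_, hg2l⟩
  intro G hG u hu v hv huK hvK
  rcases List.mem_cons.1 hG with rfl | hG
  · rw [claim v hv hvK, claim u hu huK, hg.coc u0 hu0F u hu v hv hu0K huK hvK]
  · rw [hg2l G hG u hu, hg2l G hG v hv]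
    exact hfl G hG u hu v hv huK hvK

theorem flat_prescribed {V X : Type} [DecidableEq V] {K : V → Prop} {psi : V → V → X → X}
    {col : V → V → X} (l : List (Finset V)) : ∀ (F : Finset V), Shell (F :: l) →
    (∀ G ∈ F :: l, Good K psi col G) → (∀ G ∈ l, ∀ a ∈ G, ∀ b ∈ G, K a → K b → a = b) →
    ∀ G ∈ F :: l, ∀ u ∈ G, ¬ K u → ∀ c, ∃ g, Flat K psi g (F :: l) ∧ g u = c := by
  induction l with
  | nil =>
    intro F _ hg _ G hG u hu huK c
    rcases List.mem_cons.1 hG with rfl | hG
    · have hgF := hg G (by simp)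
      refine ⟨fun w => psi u w c, ?_, hgF.refl u hu huK c⟩
      intro G' hG' v hv w hw hvK hwK
      rcases List.mem_cons.1 hG' with rfl | hG'
      · exact (hgF.coc u hu v hv w hw huK hvK hwK c).symm
      · simp at hG'
    · simp at hG
  | cons F' l ih =>
    intro F hS hg hone G hG u hu huK c
    have hgF := hg F (by simp)
    have ext : ∀ g : V → X, Flat K psi g (F' :: l) →
        ∃ g2 : V → X, Flat K psi g2 (F :: F' :: l) ∧ ∀ G ∈ F' :: l, ∀ w ∈ G, g2 w = g w := by
      intro g hfl
      refine extend ⟨F', by simp⟩ hS hgF hfl ?_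
      intro x hx y hy hxy hxK hyK hz H1 hH1 H2 hH2 h1 h2
      exfalso
      obtain ⟨z1, hz1, z2, hz2, h12, h1x, h1y, h2x, h2y⟩ := hgF.exists_two x y
      exact h12 (hone H1 hH1 z1 (h1 (Finset.mem_erase.2 ⟨h1x, hz1⟩)) z2
        (h1 (Finset.mem_erase.2 ⟨h2x, hz2⟩)) (hz z1 hz1 h1x h1y) (hz z2 hz2 h2x h2y))
    have ih' := ih F' hS.1 (fun G hG => hg G (List.mem_cons_of_mem _ hG))
      (fun G hG => hone G (List.mem_cons_of_mem _ hG))
    by_cases hex : ∃ G ∈ F' :: l, u ∈ G
    · obtain ⟨G', hG', huG'⟩ := hex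
      obtain ⟨g, hfl, hgu⟩ := ih' G' hG' u huG' huK c
      obtain ⟨g2, h1, h2⟩ := ext g hfl
      exact ⟨g2, h1, (h2 G' hG' u huG').trans hgu⟩
    · have hGF : G = F := by
        rcases List.mem_cons.1 hG with h | h
        · exact h
        · exact absurd ⟨G, h, hu⟩ hex
      subst hGF
      obtain ⟨H, hH, x, hxF, -, hxH⟩ := hS.2 F' (by simp)
      obtain ⟨u0, hu0, hu0K⟩ := hgF.exists_nonK x
      obtain ⟨g, hfl, hgu⟩ := ih' H hH u0 (hxH hu0) hu0K (psi u u0 c)
      obtain ⟨g2, h1, h2⟩ := ext g hfl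
      refine ⟨g2, h1, ?_⟩
      have hu0F := Finset.mem_of_mem_erase hu0
      rw [h1 G (by simp) u0 hu0F u hu hu0K huK, h2 H hH u0 (hxH hu0), hgu,
        hgF.coc u hu u0 hu0F u hu huK hu0K huK, hgF.refl u hu huK]

theorem dichotomy {V X : Type} [DecidableEq V] {K : V → Prop} {psi : V → V → X → X}
    {col : V → V → X} {g : V → X} {a : V} (ha : K a) (l : List (Finset V)) :
    Shell l → (∀ G ∈ l, Good K psi col G) → Flat K psi g l →
    (∀ G ∈ l, a ∈ G → ∀ w ∈ G, ¬ K w → g w = col a w) ∨
    (∀ G ∈ l, a ∈ G → ∀ w ∈ G, ¬ K w → g w ≠ col a w) := by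
  induction l with
  | nil => intro _ _ _; left; intro G hG; simp at hG
  | cons F l ih =>
    intro hS hg hfl
    have hgF := hg F (by simp)
    have ih' := ih hS.1 (fun G hG => hg G (List.mem_cons_of_mem _ hG))
      (fun G hG => hfl G (List.mem_cons_of_mem _ hG))
    have key : a ∈ F → ∀ u ∈ F, ∀ v ∈ F, ¬ K u → ¬ K v → g u = col a u → g v = col a v := by
      intro haF u hu v hv huK hvK h
      rw [hfl F (by simp) u hu v hv huK hvK, h, hgF.colf a haF ha u hu v hv huK hvK]
    by_cases haF : a ∈ F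
    · by_cases hex : ∃ G ∈ l, a ∈ G
      · obtain ⟨G, hG, haG⟩ := hex
        obtain ⟨H, hH, y, hyF, hy1, hy2⟩ := hS.2 G hG
        have hay : a ∈ F.erase y := hy1 (Finset.mem_inter.2 ⟨haF, haG⟩)
        obtain ⟨u, hu, huK⟩ := hgF.exists_nonK y
        have huF := Finset.mem_of_mem_erase hu
        rcases ih' with h | h
        · left
          intro G' hG' haG' w hw hwK
          rcases List.mem_cons.1 hG' with rfl | hG'
          · exact key haF u huF w hw huK hwK (h H hH (hy2 hay) u (hy2 hu) huK)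
          · exact h G' hG' haG' w hw hwK
        · right
          intro G' hG' haG' w hw hwK
          rcases List.mem_cons.1 hG' with rfl | hG'
          · intro hc
            exact h H hH (hy2 hay) u (hy2 hu) huK (key haF w hw u huF hwK huK hc)
          · exact h G' hG' haG' w hw hwK
      · by_cases hu : ∃ u ∈ F, ¬ K u ∧ g u = col a u
        · obtain ⟨u, huF, huK, hgu⟩ := hu
          left
          intro G' hG' haG' w hw hwK
          rcases List.mem_cons.1 hG' with rfl | hG'
          · exact key haF u huF w hw huK hwK hgu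
          · exact absurd ⟨G', hG', haG'⟩ hex
        · right
          intro G' hG' haG' w hw hwK
          rcases List.mem_cons.1 hG' with rfl | hG'
          · intro hc
            exact hu ⟨w, hw, hwK, hc⟩
          · exact absurd ⟨G', hG', haG'⟩ hex
    · rcases ih' with h | h
      · left
        intro G' hG' haG' w hw hwK
        rcases List.mem_cons.1 hG' with rfl | hG'
        · exact absurd haG' haF
        · exact h G' hG' haG' w hw hwK
      · right
        intro G' hG' haG' w hw hwK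
        rcases List.mem_cons.1 hG' with rfl | hG'
        · exact absurd haG' haF
        · exact h G' hG' haG' w hw hwK

theorem bool_ne {a b : Bool} (h : ¬ a = b) : a = !b := by
  revert a b
  decide

/-- Near the singular vertex `a`, the section `g` is the prescribed one. -/
def Al {V X : Type} (K : V → Prop) (col : V → V → X) (g : V → X) (l : List (Finset V)) (a : V) :
    Prop :=
  (∃ G ∈ l, a ∈ G) ∧ ∀ G ∈ l, a ∈ G → ∀ w ∈ G, ¬ K w → g w = col a w

theorem closing {V X : Type} [DecidableEq V] {K : V → Prop} {psi : V → V → X → X}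
    {col : V → V → X} {F : Finset V} {l : List (Finset V)} {g : V → X}
    (hgF : Good K psi col F) {e : V} (heK : K e) (hal : Al K col g l e) (heF : e ∈ F) {x y : V}
    (hx : x ∈ F) (hy : y ∈ F) (hxy : x ≠ y) (hex : e ≠ x) (hey : e ≠ y) (hxK : ¬ K x)
    (hyK : ¬ K y) {H1 H2 : Finset V} (hH1 : H1 ∈ l) (hH2 : H2 ∈ l) (h1 : F.erase x ⊆ H1)
    (h2 : F.erase y ⊆ H2) : g x = psi y x (g y) := by
  have e1 := hal.2 H1 hH1 (h1 (Finset.mem_erase.2 ⟨hex, heF⟩)) y
    (h1 (Finset.mem_erase.2 ⟨hxy.symm, hy⟩)) hyK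
  have e2 := hal.2 H2 hH2 (h2 (Finset.mem_erase.2 ⟨hey, heF⟩)) x
    (h2 (Finset.mem_erase.2 ⟨hxy, hx⟩)) hxK
  rw [e1, e2, hgF.colf e heF heK y hy x hx hyK hxK]

theorem persist {V X : Type} [DecidableEq V] {K : V → Prop} {psi : V → V → X → X}
    {col : V → V → X} {F : Finset V} {l : List (Finset V)} {g g2 : V → X}
    (hS : Shell (F :: l)) (hg : ∀ G ∈ F :: l, Good K psi col G) (hfl : Flat K psi g2 (F :: l))
    (hg2 : ∀ G ∈ l, ∀ w ∈ G, g2 w = g w) {e : V} (heK : K e) (hal : Al K col g l e) :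
    Al K col g2 (F :: l) e := by
  obtain ⟨⟨G, hG, heG⟩, hal⟩ := hal
  refine ⟨⟨G, List.mem_cons_of_mem _ hG, heG⟩, ?_⟩
  rcases dichotomy heK (F :: l) hS hg hfl with h1 | h1
  · exact h1
  · exfalso
    obtain ⟨u, hu, huK⟩ := (hg G (List.mem_cons_of_mem _ hG)).exists_nonK e
    have huG := Finset.mem_of_mem_erase hu
    exact h1 G (List.mem_cons_of_mem _ hG) heG u huG huK
      ((hg2 G hG u huG).trans (hal G hG heG u huG huK))

theorem start {V X : Type} [DecidableEq V] {K : V → Prop} {psi : V → V → X → X}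
    {col : V → V → X} {F : Finset V} {l : List (Finset V)} {g : V → X}
    (hS : Shell (F :: l)) (hg : ∀ G ∈ F :: l, Good K psi col G) (hfl : Flat K psi g (F :: l))
    {a u : V} (haK : K a) (haF : a ∈ F) (huF : u ∈ F) (huK : ¬ K u) (hu : g u = col a u) :
    Al K col g (F :: l) a := by
  refine ⟨⟨F, by simp, haF⟩, ?_⟩
  rcases dichotomy haK (F :: l) hS hg hfl with h1 | h1
  · exact h1
  · exact absurd hu (h1 F (by simp) haF u huF huK)

/-- Hypotheses: two components `K1`, `K2` of singular vertices with at most three vertices each,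
a family of quotients of the colours. -/
theorem two_comp {V X Y I : Type} [DecidableEq V] (K1 K2 : V → Prop) (psi : V → V → X → X)
    (col : V → V → X) (pr : I → X → Y) (psi' : I → V → V → Y → Y) (l : List (Finset V))
    (hsurj : ∀ i, Function.Surjective (pr i)) (hI : ∀ x y, ∃ i, pr i x = pr i y)
    (hpsi : ∀ i u v x, pr i (psi u v x) = psi' i u v (pr i x))
    (h1 : ∀ a b c d, K1 a → K1 b → K1 c → K1 d → a = b ∨ a = c ∨ a = d ∨ b = c ∨ b = d ∨ c = d)
    (h2 : ∀ a b c d, K2 a → K2 b → K2 c → K2 d → a = b ∨ a = c ∨ a = d ∨ b = c ∨ b = d ∨ c = d)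
    (hmix : ∀ F ∈ l, ∀ a ∈ F, ∀ b ∈ F, K1 a → ¬ K2 b)
    (hg : ∀ F ∈ l, Good (fun v => K1 v ∨ K2 v) psi col F) (hl : Shell l)
    (he1 : ∃ F ∈ l, ∃ a ∈ F, ∃ b ∈ F, K1 a ∧ K1 b ∧ a ≠ b)
    (he2 : ∃ F ∈ l, ∃ a ∈ F, ∃ b ∈ F, K2 a ∧ K2 b ∧ a ≠ b) :
    ∃ i, ∃ g : V → Y, Flat (fun v => K1 v ∨ K2 v) (psi' i) g l := by
  classical
  set K : V → Prop := fun v => K1 v ∨ K2 v with hKdef
  -- the components in a symmetric form
  let Kc : Bool → V → Prop := fun j => if j then K1 else K2
  have hc : ∀ j, ∀ a b c d, Kc j a → Kc j b → Kc j c → Kc j d →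
      a = b ∨ a = c ∨ a = d ∨ b = c ∨ b = d ∨ c = d := by
    intro j
    cases j
    · exact h2
    · exact h1
  have hKc : ∀ v, K v → ∃ j, Kc j v := by
    rintro v (hv | hv)
    · exact ⟨true, hv⟩
    · exact ⟨false, hv⟩
  have hKc' : ∀ j v, Kc j v → K v := by
    intro j v hv
    cases j
    · exact Or.inr hv
    · exact Or.inl hv
  have key : ∀ l : List (Finset V), (∀ F ∈ l, ∀ a ∈ F, ∀ b ∈ F, K1 a → ¬ K2 b) →
      (∀ F ∈ l, Good K psi col F) → Shell l →
      (∀ G ∈ l, ∀ a ∈ G, ∀ b ∈ G, K a → K b → a = b) ∨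
      (∃ j, ∃ g, Flat K psi g l ∧ (∃ a b, Kc j a ∧ Kc j b ∧ a ≠ b ∧ Al K col g l a ∧
        Al K col g l b) ∧ ∀ G ∈ l, ∀ a ∈ G, ∀ b ∈ G, Kc (!j) a → Kc (!j) b → a = b) ∨
      (∃ i, ∃ g, Flat K (psi' i) g l ∧ ∀ j, ∃ a b, Kc j a ∧ Kc j b ∧ a ≠ b ∧
        Al K (fun u v => pr i (col u v)) g l a ∧ Al K (fun u v => pr i (col u v)) g l b) := by
    intro l
    induction l with
    | nil => intro _ _ _; left; intro G hG; simp at hG
    | cons F l ih =>
      intro hmix hg hS
      have hgF := hg F (by simp)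
      have hmixc : ∀ j, ∀ G ∈ F :: l, ∀ a ∈ G, ∀ b ∈ G, Kc j a → ¬ Kc (!j) b := by
        intro j G hG a ha b hb hKa hKb
        cases j
        · exact hmix G hG b hb a ha hKb hKa
        · exact hmix G hG a ha b hb hKa hKb
      -- two singular vertices of one facet are in the same component
      have hsame : ∀ j, ∀ G ∈ F :: l, ∀ a ∈ G, ∀ b ∈ G, Kc j a → K b → Kc j b := by
        intro j G hG a ha b hb hKa hKb
        obtain ⟨j', hj'⟩ := hKc b hKb
        by_cases hjj : j' = j
        · rwa [hjj] at hj'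
        · have : j' = !j := bool_ne hjj
          rw [this] at hj'
          exact absurd hj' (hmixc j G hG a ha b hb hKa)
      have hgood' : ∀ i, ∀ G ∈ F :: l, Good K (psi' i) (fun u v => pr i (col u v)) G := by
        intro i G hG
        have h := hg G hG
        refine ⟨h.card, ?_, ?_, ?_, ?_, h.two⟩
        · intro u hu huK c
          obtain ⟨x, rfl⟩ := hsurj i c
          rw [← hpsi, h.refl u hu huK]
        · intro u hu v hv w hw huK hvK hwK c
          obtain ⟨x, rfl⟩ := hsurj i c
          rw [← hpsi, ← hpsi, ← hpsi, h.coc u hu v hv w hw huK hvK hwK]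
        · intro a ha haK u hu v hv huK hvK
          show psi' i u v (pr i (col a u)) = pr i (col a v)
          rw [← hpsi, h.colf a ha haK u hu v hv huK hvK]
        · intro a ha b hb haK hbK u hu huK
          show pr i (col a u) = pr i (col b u)
          rw [h.cole a ha b hb haK hbK u hu huK]
      have hg' : ∀ G ∈ l, Good K psi col G := fun G hG => hg G (List.mem_cons_of_mem _ hG)
      rcases ih (fun G hG => hmix G (List.mem_cons_of_mem _ hG)) hg' hS.1 with h | h | h
      · -- no facet of `l` contains two singular vertices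
        by_cases hF : ∀ a ∈ F, ∀ b ∈ F, K a → K b → a = b
        · left
          intro G hG
          rcases List.mem_cons.1 hG with rfl | hG
          · exact hF
          · exact h G hG
        · right; left
          push Not at hF
          obtain ⟨a, haF, b, hbF, haK, hbK, hab⟩ := hF
          obtain ⟨j, hj⟩ := hKc a haK
          have hjb := hsame j F (by simp) a haF b hbF hj hbK
          obtain ⟨u, hu, huK⟩ := hgF.exists_nonK a
          have huF := Finset.mem_of_mem_erase hu
          obtain ⟨g, hfl, hgu⟩ := flat_prescribed l F hS hg h F (by simp) u huF huK (col a u)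
          refine ⟨j, g, hfl, ⟨a, b, hj, hjb, hab, ?_, ?_⟩, ?_⟩
          · exact start hS hg hfl haK haF huF huK hgu
          · exact start hS hg hfl hbK hbF huF huK
              (hgu.trans (hgF.cole a haF b hbF haK hbK u huF huK))
          · intro G hG c hc d hd hKc1 hKd1
            rcases List.mem_cons.1 hG with rfl | hG
            · exact absurd hKc1 (hmixc j G (by simp) a haF c hc hj)
            · exact h G hG c hc d hd (hKc' _ _ hKc1) (hKc' _ _ hKd1)
      · -- one component is activated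
        obtain ⟨j, g, hfl, ⟨a, b, haj, hbj, hab, hala, halb⟩, hno⟩ := h
        obtain ⟨Ga, hGa, haGa⟩ := hala.1
        obtain ⟨g2, hfl2, hg2⟩ := extend (col := col) ⟨Ga, hGa⟩ hS hgF hfl (by
          intro x hx y hy hxy hxK hyK hz H1 hH1 H2 hH2 h1' h2'
          obtain ⟨z1, hz1, z2, hz2, h12, h1x, h1y, h2x, h2y⟩ := hgF.exists_two x y
          have hz1K := hz z1 hz1 h1x h1y
          have hz2K := hz z2 hz2 h2x h2y
          have hz1H : z1 ∈ H1 := h1' (Finset.mem_erase.2 ⟨h1x, hz1⟩)
          have hz2H : z2 ∈ H1 := h1' (Finset.mem_erase.2 ⟨h2x, hz2⟩)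
          obtain ⟨j', hj'⟩ := hKc z1 hz1K
          have hj2 := hsame j' F (by simp) z1 hz1 z2 hz2 hj' hz2K
          by_cases hjj : j' = j
          · subst hjj
            rcases hc j' a b z1 z2 haj hbj hj' hj2 with e | e | e | e | e | e
            · exact absurd e hab
            · subst e
              exact closing hgF hz1K hala hz1 hx hy hxy h1x h1y hxK hyK hH1 hH2 h1' h2'
            · subst e
              exact closing hgF hz2K hala hz2 hx hy hxy h2x h2y hxK hyK hH1 hH2 h1' h2'
            · subst e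
              exact closing hgF hz1K halb hz1 hx hy hxy h1x h1y hxK hyK hH1 hH2 h1' h2'
            · subst e
              exact closing hgF hz2K halb hz2 hx hy hxy h2x h2y hxK hyK hH1 hH2 h1' h2'
            · exact absurd e h12
          · have hjn : j' = !j := bool_ne hjj
            rw [hjn] at hj' hj2
            exact absurd (hno H1 hH1 z1 hz1H z2 hz2H hj' hj2) h12)
        have pa := persist hS hg hfl2 hg2 (hKc' _ _ haj) hala
        have pb := persist hS hg hfl2 hg2 (hKc' _ _ hbj) halb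
        by_cases hF : ∀ c ∈ F, ∀ d ∈ F, Kc (!j) c → Kc (!j) d → c = d
        · right; left
          refine ⟨j, g2, hfl2, ⟨a, b, haj, hbj, hab, pa, pb⟩, ?_⟩
          intro G hG
          rcases List.mem_cons.1 hG with rfl | hG
          · exact hF
          · exact hno G hG
        · right; right
          push Not at hF
          obtain ⟨c, hcF, d, hdF, hcj, hdj, hcd⟩ := hF
          have hcK := hKc' _ _ hcj
          have hdK := hKc' _ _ hdj
          obtain ⟨u, hu, huK⟩ := hgF.exists_nonK c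
          have huF := Finset.mem_of_mem_erase hu
          obtain ⟨i, hi⟩ := hI (g2 u) (col c u)
          have hfl3 : Flat K (psi' i) (fun v => pr i (g2 v)) (F :: l) := by
            intro G hG v hv w hw hvK hwK
            show pr i (g2 w) = psi' i v w (pr i (g2 v))
            rw [← hpsi, hfl2 G hG v hv w hw hvK hwK]
          have lift : ∀ e, Al K col g2 (F :: l) e →
              Al K (fun u v => pr i (col u v)) (fun v => pr i (g2 v)) (F :: l) e := by
            intro e he
            refine ⟨he.1, fun G hG heG w hw hwK => ?_⟩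
            show pr i (g2 w) = pr i (col e w)
            rw [he.2 G hG heG w hw hwK]
          refine ⟨i, fun v => pr i (g2 v), hfl3, ?_⟩
          have A1 : ∃ a b, Kc j a ∧ Kc j b ∧ a ≠ b ∧
              Al K (fun u v => pr i (col u v)) (fun v => pr i (g2 v)) (F :: l) a ∧
              Al K (fun u v => pr i (col u v)) (fun v => pr i (g2 v)) (F :: l) b :=
            ⟨a, b, haj, hbj, hab, lift a pa, lift b pb⟩
          have A2 : ∃ a b, Kc (!j) a ∧ Kc (!j) b ∧ a ≠ b ∧
              Al K (fun u v => pr i (col u v)) (fun v => pr i (g2 v)) (F :: l) a ∧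
              Al K (fun u v => pr i (col u v)) (fun v => pr i (g2 v)) (F :: l) b := by
            refine ⟨c, d, hcj, hdj, hcd, ?_, ?_⟩
            · exact start hS (hgood' i) hfl3 hcK hcF huF huK hi
            · refine start hS (hgood' i) hfl3 hdK hdF huF huK ?_
              show pr i (g2 u) = pr i (col d u)
              rw [hi, hgF.cole c hcF d hdF hcK hdK u huF huK]
          intro j'
          by_cases hjj : j' = j
          · rw [hjj]; exact A1
          · have hjn : j' = !j := bool_ne hjj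
            rw [hjn]; exact A2
      · -- both components are activated
        obtain ⟨i, g, hfl, hal⟩ := h
        obtain ⟨a0, -, -, -, -, ha0, -⟩ := hal true
        obtain ⟨Ga, hGa, haGa⟩ := ha0.1
        have hgF' := hgood' i F (by simp)
        obtain ⟨g2, hfl2, hg2⟩ := extend (col := fun u v => pr i (col u v)) ⟨Ga, hGa⟩ hS hgF' hfl
          (by
          intro x hx y hy hxy hxK hyK hz H1 hH1 H2 hH2 h1' h2'
          obtain ⟨z1, hz1, z2, hz2, h12, h1x, h1y, h2x, h2y⟩ := hgF.exists_two x y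
          have hz1K := hz z1 hz1 h1x h1y
          have hz2K := hz z2 hz2 h2x h2y
          obtain ⟨j, hj⟩ := hKc z1 hz1K
          have hj2 := hsame j F (by simp) z1 hz1 z2 hz2 hj hz2K
          obtain ⟨a, b, haj, hbj, hab, hala, halb⟩ := hal j
          rcases hc j a b z1 z2 haj hbj hj hj2 with e | e | e | e | e | e
          · exact absurd e hab
          · subst e
            exact closing hgF' hz1K hala hz1 hx hy hxy h1x h1y hxK hyK hH1 hH2 h1' h2'
          · subst e
            exact closing hgF' hz2K hala hz2 hx hy hxy h2x h2y hxK hyK hH1 hH2 h1' h2'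
          · subst e
            exact closing hgF' hz1K halb hz1 hx hy hxy h1x h1y hxK hyK hH1 hH2 h1' h2'
          · subst e
            exact closing hgF' hz2K halb hz2 hx hy hxy h2x h2y hxK hyK hH1 hH2 h1' h2'
          · exact absurd e h12)
        right; right
        refine ⟨i, g2, hfl2, fun j => ?_⟩
        obtain ⟨a, b, haj, hbj, hab, hala, halb⟩ := hal j
        exact ⟨a, b, haj, hbj, hab, persist hS (hgood' i) hfl2 hg2 (hKc' _ _ haj) hala,
          persist hS (hgood' i) hfl2 hg2 (hKc' _ _ hbj) halb⟩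
  rcases key l hmix hg hl with h | ⟨j, g, -, -, hno⟩ | ⟨i, g, hfl, -⟩
  · obtain ⟨F, hF, a, ha, b, hb, haK, hbK, hab⟩ := he1
    exact absurd (h F hF a ha b hb (Or.inl haK) (Or.inl hbK)) hab
  · exfalso
    cases j
    · obtain ⟨F, hF, a, ha, b, hb, haK, hbK, hab⟩ := he1
      exact hab (hno F hF a ha b hb haK hbK)
    · obtain ⟨F, hF, a, ha, b, hb, haK, hbK, hab⟩ := he2
      exact hab (hno F hF a ha b hb haK hbK)
  · exact ⟨i, g, hfl⟩

end Pool.Agent.X161.CS
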