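import Pool.Agent.H933R3.Ball

/-!
# The boundary of a simplex is a sphere
-/

set_option autoImplicit false

namespace Pool.Agent.X161.CS

open Finset Pool.Agent.Helper175.NS Pool.Agent.H904R2.BallAux Pool.Agent.H933R3

theorem mem_corner {n : ℕ} {y : EuclideanSpace ℝ (Fin n)} :
    y ∈ Corner n ↔ (∀ j, 0 ≤ y j) ∧ ∑ j, y j ≤ 1 := Iff.rfl

theorem corner_convex (n : ℕ) : Convex ℝ (Corner n) :=
  (S_convex n).linear_preimage (EuclideanSpace.equiv (Fin n) ℝ).toLinearMap

theorem corner_closed (n : ℕ) : IsClosed (Corner n) :=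
  (S_closed n).preimage (EuclideanSpace.equiv (Fin n) ℝ).continuous

theorem corner_bounded (n : ℕ) : Bornology.IsBounded (Corner n) := by
  have h1 : Corner n = (EuclideanSpace.equiv (Fin n) ℝ).symm '' (S n) := by
    ext x
    constructor
    · intro hx
      exact ⟨EuclideanSpace.equiv (Fin n) ℝ x, hx, by simp⟩
    · rintro ⟨y, hy, rfl⟩
      show EuclideanSpace.equiv (Fin n) ℝ ((EuclideanSpace.equiv (Fin n) ℝ).symm y) ∈ S n
      rw [ContinuousLinearEquiv.apply_symm_apply]
      exact hy
  rw [h1]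
  exact (EuclideanSpace.equiv (Fin n) ℝ).symm.lipschitz.isBounded_image (S_bounded n)

theorem push_in {E : Type} [NormedAddCommGroup E] [NormedSpace ℝ E] {C : Set E} {y : E}
    (hy : y ∈ interior C) (e : E) : ∃ t : ℝ, 0 < t ∧ y + t • e ∈ C := by
  have hc : Continuous fun t : ℝ => y + t • e := by fun_prop
  have ho : IsOpen ((fun t : ℝ => y + t • e) ⁻¹' interior C) := isOpen_interior.preimage hc
  have h0 : (0 : ℝ) ∈ (fun t : ℝ => y + t • e) ⁻¹' interior C := by
    show y + (0 : ℝ) • e ∈ interior C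
    rw [zero_smul, add_zero]
    exact hy
  obtain ⟨ε, hε, hb⟩ := Metric.isOpen_iff.1 ho 0 h0
  refine ⟨ε / 2, by positivity, interior_subset (hb ?_)⟩
  rw [Metric.mem_ball, dist_zero_right, Real.norm_eq_abs, abs_of_pos (by positivity)]
  linarith

theorem corner_interior (n : ℕ) (hn : 0 < n) (y : EuclideanSpace ℝ (Fin n)) :
    y ∈ interior (Corner n) ↔ (∀ j, 0 < y j) ∧ ∑ j, y j < 1 := by
  constructor
  · intro hy
    have hm := mem_corner.1 (interior_subset hy)
    constructor
    · intro j
      obtain ⟨t, ht, h⟩ := push_in hy (-(EuclideanSpace.single j (1 : ℝ)))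
      have h1 := (mem_corner.1 h).1 j
      have h2 : (y + t • -(EuclideanSpace.single j (1 : ℝ))) j = y j - t := by
        simp [sub_eq_add_neg]
      rw [h2] at h1
      linarith
    · obtain ⟨t, ht, h⟩ := push_in hy (EuclideanSpace.single (⟨0, hn⟩ : Fin n) (1 : ℝ))
      have h1 := (mem_corner.1 h).2
      have h2 : ∑ j, (y + t • (EuclideanSpace.single (⟨0, hn⟩ : Fin n) (1 : ℝ))) j =
          ∑ j, y j + t := by
        have : ∀ j, (y + t • (EuclideanSpace.single (⟨0, hn⟩ : Fin n) (1 : ℝ))) j =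
            y j + (if j = ⟨0, hn⟩ then t else 0) := by
          intro j
          simp only [PiLp.add_apply, PiLp.smul_apply, PiLp.single_apply, smul_eq_mul]
          split_ifs <;> simp
        rw [Finset.sum_congr rfl (fun j _ => this j), Finset.sum_add_distrib,
          Finset.sum_ite_eq' univ _ _]
        simp
      rw [h2] at h1
      linarith
  · rintro ⟨h1, h2⟩
    have ho : IsOpen {y : EuclideanSpace ℝ (Fin n) | (∀ j, 0 < y j) ∧ ∑ j, y j < 1} := by
      have h3 : IsOpen {y : EuclideanSpace ℝ (Fin n) | ∀ j, 0 < y j} := by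
        rw [Set.ofPred_forall]
        exact isOpen_iInter_of_finite fun j => isOpen_lt continuous_const (by fun_prop)
      have h4 : IsOpen {y : EuclideanSpace ℝ (Fin n) | ∑ j, y j < 1} :=
        isOpen_lt (by fun_prop) continuous_const
      exact h3.inter h4
    refine interior_maximal (fun z hz => ?_) ho ⟨h1, h2⟩
    obtain ⟨h3, h4⟩ : (∀ j, 0 < z j) ∧ ∑ j, z j < 1 := hz
    exact mem_corner.2 ⟨fun j => (h3 j).le, h4.le⟩

theorem corner_frontier (n : ℕ) (hn : 0 < n) (y : EuclideanSpace ℝ (Fin n)) :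
    y ∈ frontier (Corner n) ↔ y ∈ Corner n ∧ ((∃ j, y j = 0) ∨ ∑ j, y j = 1) := by
  rw [frontier, (corner_closed n).closure_eq, Set.mem_sdiff, corner_interior n hn]
  constructor
  · rintro ⟨h1, h2⟩
    refine ⟨h1, ?_⟩
    by_contra hcon
    push Not at hcon
    obtain ⟨h3, h4⟩ := mem_corner.1 h1
    exact h2 ⟨fun j => lt_of_le_of_ne (h3 j) (Ne.symm (hcon.1 j)), lt_of_le_of_ne h4 hcon.2⟩
  · rintro ⟨h1, h2⟩
    refine ⟨h1, ?_⟩
    rintro ⟨h3, h4⟩
    rcases h2 with ⟨j, hj⟩ | h2
    · exact absurd hj (h3 j).ne'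
    · exact absurd h2 h4.ne

theorem frontier_sphere (n : ℕ) :
    Nonempty (frontier (Corner n) ≃ₜ Metric.sphere (0 : EuclideanSpace ℝ (Fin n)) 1) := by
  have hint : (interior (Corner n)).Nonempty := by
    have : interior (Corner n) = (EuclideanSpace.equiv (Fin n) ℝ) ⁻¹' interior (S n) :=
      ((EuclideanSpace.equiv (Fin n) ℝ).toHomeomorph.preimage_interior (S n)).symm
    rw [this]
    obtain ⟨x, hx⟩ := S_interior_nonempty n
    refine ⟨(EuclideanSpace.equiv (Fin n) ℝ).symm x, ?_⟩
    show EuclideanSpace.equiv (Fin n) ℝ ((EuclideanSpace.equiv (Fin n) ℝ).symm x) ∈ interior (S n)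
    rw [ContinuousLinearEquiv.apply_symm_apply]
    exact hx
  obtain ⟨h, -, -, h3⟩ := exists_homeomorph_image_interior_closure_frontier_eq_unitBall
    (corner_convex n) hint (corner_bounded n)
  exact ⟨(h.image (frontier (Corner n))).trans (Homeomorph.setCongr h3)⟩

/-- the facets of the boundary of the simplex `F` -/
def bdS {V : Type} [DecidableEq V] (F : Finset V) : Finset (Finset V) :=
  F.image (fun z => F.erase z)

theorem std_frontier (n : ℕ) (hn : 0 < n) :
    Nonempty (Sp (bdS (univ : Finset (Fin (n + 1)))) ≃ₜ frontier (Corner n)) := by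
  have hmem : ∀ x : Fin (n + 1) → ℝ, x ∈ Sp (bdS (univ : Finset (Fin (n + 1)))) ↔
      (∀ i, 0 ≤ x i) ∧ ∑ i, x i = 1 ∧ ∃ i, x i = 0 := by
    intro x
    constructor
    · rintro ⟨h0, F, hF, h1, h2⟩
      rw [bdS, mem_image] at hF
      obtain ⟨z, -, rfl⟩ := hF
      have hz : x z = 0 := h1 z (by simp)
      refine ⟨h0, ?_, z, hz⟩
      rw [← Finset.add_sum_erase univ x (mem_univ z), hz, zero_add]
      exact h2
    · rintro ⟨h0, h1, z, hz⟩
      refine ⟨h0, univ.erase z, mem_image_of_mem _ (mem_univ z), ?_, ?_⟩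
      · intro v hv
        have : v = z := by simpa using hv
        rw [this, hz]
      · rw [← Finset.add_sum_erase univ x (mem_univ z), hz, zero_add] at h1
        exact h1
  let a : (Fin (n + 1) → ℝ) → EuclideanSpace ℝ (Fin n) := fun x =>
    (EuclideanSpace.equiv (Fin n) ℝ).symm (fun j => x j.succ)
  let b : EuclideanSpace ℝ (Fin n) → (Fin (n + 1) → ℝ) := fun y =>
    Fin.cons (1 - ∑ j, (EuclideanSpace.equiv (Fin n) ℝ y) j) (EuclideanSpace.equiv (Fin n) ℝ y)
  have haj : ∀ x j, a x j = x j.succ := fun x j => rfl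
  have ha : ∀ x ∈ Sp (bdS (univ : Finset (Fin (n + 1)))), a x ∈ frontier (Corner n) := by
    intro x hx
    rw [hmem] at hx
    obtain ⟨h0, h1, i, hi⟩ := hx
    rw [Fin.sum_univ_succ] at h1
    rw [corner_frontier n hn, mem_corner]
    simp only [haj]
    refine ⟨⟨fun j => h0 _, ?_⟩, ?_⟩
    · have := h0 0
      linarith
    · revert hi
      refine Fin.cases (fun hi => ?_) (fun j hi => ?_) i
      · right; linarith
      · left; exact ⟨j, hi⟩
  have hb : ∀ y ∈ frontier (Corner n), b y ∈ Sp (bdS (univ : Finset (Fin (n + 1)))) := by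
    intro y hy
    rw [corner_frontier n hn] at hy
    obtain ⟨hy, hy2⟩ := hy
    rw [hmem]
    obtain ⟨h0, h1⟩ := mem_corner.1 hy
    refine ⟨?_, ?_, ?_⟩
    · intro i
      refine Fin.cases ?_ (fun j => ?_) i
      · simp only [b, Fin.cons_zero]
        show 0 ≤ 1 - ∑ j, y j
        linarith
      · simp only [b, Fin.cons_succ]; exact h0 j
    · rw [Fin.sum_univ_succ]
      simp only [b, Fin.cons_zero, Fin.cons_succ]
      ring
    · rcases hy2 with ⟨j, hj⟩ | h2
      · exact ⟨j.succ, by simp only [b, Fin.cons_succ]; exact hj⟩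
      · refine ⟨0, ?_⟩
        simp only [b, Fin.cons_zero]
        show 1 - ∑ j, y j = 0
        linarith
  refine ⟨{ toFun := fun x => ⟨a x.1, ha x.1 x.2⟩
            invFun := fun y => ⟨b y.1, hb y.1 y.2⟩
            left_inv := ?_
            right_inv := ?_
            continuous_toFun := ?_
            continuous_invFun := ?_ }⟩
  · rintro ⟨x, hx⟩
    apply Subtype.ext
    rw [hmem] at hx
    have h1 := hx.2.1
    rw [Fin.sum_univ_succ] at h1
    funext i
    refine Fin.cases ?_ (fun j => ?_) i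
    · simp only [a, b, Fin.cons_zero, ContinuousLinearEquiv.apply_symm_apply]
      linarith
    · simp only [a, b, Fin.cons_succ, ContinuousLinearEquiv.apply_symm_apply]
  · rintro ⟨y, hy⟩
    apply Subtype.ext
    simp only [a, b, Fin.cons_succ]
    exact ContinuousLinearEquiv.symm_apply_apply _ _
  · apply Continuous.subtype_mk
    exact (EuclideanSpace.equiv (Fin n) ℝ).symm.continuous.comp
      (continuous_pi fun j => (continuous_apply j.succ).comp continuous_subtype_val)
  · apply Continuous.subtype_mk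
    apply continuous_pi
    intro i
    have hc : ∀ j, Continuous fun y : frontier (Corner n) =>
        (EuclideanSpace.equiv (Fin n) ℝ y.1) j := fun j =>
      (continuous_apply j).comp ((EuclideanSpace.equiv (Fin n) ℝ).continuous.comp
        continuous_subtype_val)
    refine Fin.cases ?_ (fun j => ?_) i
    · simp only [b, Fin.cons_zero]
      exact continuous_const.sub (continuous_finsetSum _ fun j _ => hc j)
    · simp only [b, Fin.cons_succ]
      exact hc j

/-- the boundary of an `n`-simplex is an `(n - 1)`-sphere -/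
theorem bdS_sphere {V : Type} [DecidableEq V] (F : Finset V) (n : ℕ) (hn : 0 < n)
    (hF : F.card = n + 1) :
    Nonempty (Sp (bdS F) ≃ₜ Metric.sphere (0 : EuclideanSpace ℝ (Fin n)) 1) := by
  obtain ⟨e1⟩ := frontier_sphere n
  obtain ⟨e2⟩ := std_frontier n hn
  let f : Fin (n + 1) → V := fun i => ((F.equivFinOfCardEq hF).symm i : F)
  have hfinj : Function.Injective f := by
    intro i j h
    exact (F.equivFinOfCardEq hF).symm.injective (Subtype.ext h)
  have himg : (univ : Finset (Fin (n + 1))).image f = F := by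
    ext v
    rw [mem_image]
    constructor
    · rintro ⟨i, -, rfl⟩
      exact ((F.equivFinOfCardEq hF).symm i).2
    · intro hv
      exact ⟨F.equivFinOfCardEq hF ⟨v, hv⟩, mem_univ _, by simp [f]⟩
  obtain ⟨e3⟩ := relabel_homeo (bdS (univ : Finset (Fin (n + 1)))) f univ
    (fun F _ => subset_univ F) (hfinj.injOn)
  have h1 : (bdS (univ : Finset (Fin (n + 1)))).image (fun F => F.image f) = bdS F := by
    rw [bdS, bdS, image_image]
    have h2 : ∀ z, ((univ : Finset (Fin (n + 1))).erase z).image f = F.erase (f z) := by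
      intro z
      rw [image_erase hfinj, himg]
    ext A
    simp only [mem_image, Function.comp]
    constructor
    · rintro ⟨z, -, rfl⟩
      refine ⟨f z, ?_, (h2 z).symm⟩
      rw [← himg]
      exact mem_image_of_mem _ (mem_univ z)
    · rintro ⟨v, hv, rfl⟩
      rw [← himg, mem_image] at hv
      obtain ⟨z, -, rfl⟩ := hv
      exact ⟨z, mem_univ _, h2 z⟩
  rw [h1] at e3
  exact ⟨(e3.trans e2).trans e1⟩

end Pool.Agent.X161.CS
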