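import Pool.Agent.X161.CE.Inst
import Pool.Agent.H933R3.Bits
import Pool.Agent.X161.CS.Sph
import Pool.Agent.X161.CS.Cst
import Pool.Agent.X161.CS.Sec

/-!
# Bit masks: shellings, intersections, exchanges
-/

set_option autoImplicit false

namespace Pool.Agent.X161.CS

open Finset Pool.Agent.Helper175.NS Pool.Agent.H933R3
open Pool.Agent.X161.CE (de bt le deL mem_deL mem_de mem_bt okS nwB deL_of_sameB de_card
  de_xor stB star_split deL_append star_union deL_filter deL_filter' deL_stB de_ne not63)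

variable {n : ℕ}

/-! ### subsets of `Fin n` -/

/-- the elements of the set with a given mask -/
def bF (n m : ℕ) : List (Fin n) := (List.finRange n).filter (fun i => m.testBit i)

theorem mem_bF {m : ℕ} {i : Fin n} : i ∈ bF n m ↔ i ∈ decF n m := by
  rw [bF, List.mem_filter, mem_decF]
  simp

theorem decF_land (a b : ℕ) : decF n (a &&& b) = decF n a ∩ decF n b := by
  ext i
  rw [mem_inter, mem_decF, mem_decF, mem_decF, Nat.testBit_land, Bool.and_eq_true]

theorem decF_le {a b : ℕ} (h : le a b = true) : decF n a ⊆ decF n b := by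
  intro i hi
  rw [mem_decF] at hi ⊢
  rw [le, beq_iff_eq] at h
  rw [← h, Nat.testBit_land, Bool.and_eq_true] at hi
  exact hi.2

theorem decF_xor {m : ℕ} {y : Fin n} (hy : y ∈ decF n m) :
    decF n (m ^^^ 2 ^ (y : ℕ)) = (decF n m).erase y := by
  rw [mem_decF] at hy
  ext i
  rw [mem_erase, mem_decF, mem_decF, Nat.testBit_xor, Nat.testBit_two_pow]
  by_cases h : i = y
  · subst h
    simp [hy]
  · have : ¬ (y : ℕ) = (i : ℕ) := fun e => h (Fin.ext e.symm)
    simp [h, this]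

/-- shelling order, last facet first -/
def shB (n : ℕ) : List ℕ → Bool
  | [] => true
  | m :: l => shB n l && l.all (fun g => (bF n m).any (fun y =>
      le (m &&& g) (m ^^^ 2 ^ (y : ℕ)) && l.any (fun h => le (m ^^^ 2 ^ (y : ℕ)) h)))

theorem shB_sound (l : List ℕ) (h : shB n l = true) : Shell (l.map (decF n)) := by
  induction l with
  | nil => trivial
  | cons m l ih =>
    simp only [shB, Bool.and_eq_true, List.all_eq_true, List.any_eq_true] at h
    refine ⟨ih h.1, ?_⟩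
    intro G hG
    obtain ⟨g, hg, rfl⟩ := List.mem_map.1 hG
    obtain ⟨y, hy, h1, h2, hh2, h3⟩ := h.2 g hg
    rw [mem_bF] at hy
    refine ⟨decF n h2, List.mem_map.2 ⟨h2, hh2, rfl⟩, y, hy, ?_, ?_⟩
    · rw [← decF_land, ← decF_xor hy]
      exact decF_le h1
    · rw [← decF_xor hy]
      exact decF_le h3

/-- the family of sets with the given masks -/
def fm (n : ℕ) (l : List ℕ) : Finset (Finset (Fin n)) := (l.map (decF n)).toFinset

theorem mem_fm {l : List ℕ} {F : Finset (Fin n)} : F ∈ fm n l ↔ ∃ m ∈ l, decF n m = F := by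
  rw [fm, List.mem_toFinset, List.mem_map]

theorem fm_append (l l' : List ℕ) : fm n (l ++ l') = fm n l ∪ fm n l' := by
  rw [fm, List.map_append, List.toFinset_append]
  rfl

/-- the masks `G` generate the intersection -/
def inB (A B G : List ℕ) : Bool :=
  (A.all fun a => B.all fun b => G.any fun g => le (a &&& b) g) &&
    G.all fun g => A.any (fun a => le g a) && B.any (fun b => le g b)

theorem inB_sound {A B G : List ℕ} (h : inB A B G = true) (ρ : Finset (Fin n)) :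
    (∃ γ ∈ fm n G, ρ ⊆ γ) ↔ (∃ σ ∈ fm n A, ∃ τ ∈ fm n B, ρ ⊆ σ ∧ ρ ⊆ τ) := by
  simp only [inB, Bool.and_eq_true, List.all_eq_true, List.any_eq_true] at h
  constructor
  · rintro ⟨γ, hγ, hρ⟩
    obtain ⟨g, hg, rfl⟩ := mem_fm.1 hγ
    obtain ⟨⟨a, ha, h1⟩, b, hb, h2⟩ := h.2 g hg
    exact ⟨decF n a, mem_fm.2 ⟨a, ha, rfl⟩, decF n b, mem_fm.2 ⟨b, hb, rfl⟩,
      hρ.trans (decF_le h1), hρ.trans (decF_le h2)⟩
  · rintro ⟨σ, hσ, τ, hτ, h1, h2⟩
    obtain ⟨a, ha, rfl⟩ := mem_fm.1 hσ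
    obtain ⟨b, hb, rfl⟩ := mem_fm.1 hτ
    obtain ⟨g, hg, h3⟩ := h.1 a ha b hb
    refine ⟨decF n g, mem_fm.2 ⟨g, hg, rfl⟩, fun w hw => decF_le h3 ?_⟩
    rw [decF_land]
    exact mem_inter.2 ⟨h1 hw, h2 hw⟩

theorem cst_fm {k : ℕ} {l : List ℕ} (hne : l ≠ []) (h : shB n l = true)
    (hk : ∀ m ∈ l, (decF n m).card = k) : Cst k (fm n l) := by
  apply cst_shell _ _ (shB_sound l h)
  · intro σ hσ
    obtain ⟨m, hm, rfl⟩ := List.mem_map.1 hσ
    exact hk m hm
  · intro h1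
    exact hne (List.map_eq_nil_iff.1 h1)

/-! ### the realization -/

theorem image_de {m : ℕ} (h64 : n ≤ 64) (hm : m < 2 ^ n) : (decF n m).image Fin.val = de m := by
  ext k
  rw [mem_image, mem_de]
  constructor
  · rintro ⟨i, hi, rfl⟩
    have := i.2
    exact ⟨by omega, mem_decF.1 hi⟩
  · rintro ⟨-, hk⟩
    have h2 : k < n := by
      by_contra hcon
      rw [Nat.testBit_eq_false_of_lt (hm.trans_le (Nat.pow_le_pow_right (by norm_num)
        (by omega)))] at hk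
      exact absurd hk (by decide)
    exact ⟨⟨k, h2⟩, mem_decF.2 hk, rfl⟩

theorem fm_image {l : List ℕ} (h64 : n ≤ 64) (hl : ∀ m ∈ l, m < 2 ^ n) :
    (fm n l).image (fun F => F.image Fin.val) = deL l := by
  ext A
  rw [mem_image, mem_deL]
  constructor
  · rintro ⟨F, hF, rfl⟩
    obtain ⟨m, hm, rfl⟩ := mem_fm.1 hF
    exact ⟨m, hm, (image_de h64 (hl m hm)).symm⟩
  · rintro ⟨m, hm, rfl⟩
    exact ⟨decF n m, mem_fm.2 ⟨m, hm, rfl⟩, image_de h64 (hl m hm)⟩

theorem fm_homeo {l : List ℕ} (h64 : n ≤ 64) (hl : ∀ m ∈ l, m < 2 ^ n) :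
    Nonempty (Sp (fm n l) ≃ₜ Sp (deL l)) := by
  obtain ⟨e1⟩ := relabel_homeo (fm n l) (Fin.val : Fin n → ℕ) univ (fun F _ => subset_univ F)
    (Fin.val_injective.injOn)
  rw [fm_image h64 hl] at e1
  exact ⟨e1.symm⟩

theorem realization_fm (l : List ℕ) : {x : Fin n → ℝ | (∀ i, 0 ≤ x i) ∧ ∑ i, x i = 1 ∧
    ∃ σ ∈ fm n l, ∀ i, x i ≠ 0 → i ∈ σ} = Sp (fm n l) := by
  ext x
  constructor
  · rintro ⟨h0, h1, σ, hσ, h2⟩
    refine ⟨h0, σ, hσ, fun i hi => ?_, ?_⟩
    · by_contra hne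
      exact hi (h2 i hne)
    · rw [← h1]
      refine sum_subset (subset_univ _) (fun i _ hi => ?_)
      by_contra hne
      exact hi (h2 i hne)
  · rintro ⟨h0, F, hF, h1, h2⟩
    refine ⟨h0, ?_, F, hF, ?_⟩
    · rw [← h2]
      exact (sum_subset (subset_univ _) (fun i _ hi => h1 i hi)).symm
    · intro i hi
      by_contra hne
      exact hi (h1 i hne)

/-! ### exchanges ending at an arbitrary list -/

def chS : List ℕ → List (ℕ × ℕ) → List ℕ → Bool
  | l, [], t => Pool.Agent.X161.CE.sameB l t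
  | l, r :: ms, t =>
    let u := l.filter (fun m => !(le r.1 m))
    let l1 := l.filter (fun m => le r.1 m)
    let n := nwB l1 r.1 r.2
    okS u l1 n r.1 r.2 && chS (u ++ n) ms t

theorem chS_homeo (ms : List (ℕ × ℕ)) : ∀ (l t : List ℕ), (∀ m ∈ l, m < 2 ^ 63) →
    chS l ms t = true → Nonempty (Sp (deL l) ≃ₜ Sp (deL t)) := by
  induction ms with
  | nil =>
    intro l t _ h
    rw [chS] at h
    rw [deL_of_sameB h]
    exact ⟨Homeomorph.refl _⟩
  | cons r ms ih =>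
    intro l t hl h
    rw [chS, Bool.and_eq_true] at h
    obtain ⟨h1, h2⟩ := h
    simp only [okS, Bool.and_eq_true, decide_eq_true_eq, List.all_eq_true] at h1
    obtain ⟨⟨⟨⟨⟨⟨h0, h3⟩, h4⟩, h5⟩, h6⟩, h7⟩, h8⟩ := h1
    have hl' : ∀ m ∈ l.filter (fun m => !(le r.1 m)) ++
        nwB (l.filter (fun m => le r.1 m)) r.1 r.2, m < 2 ^ 63 := by
      intro m hm
      rcases List.mem_append.1 hm with hm | hm
      · exact hl m (List.mem_filter.1 hm).1
      · exact h4 m hm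
    obtain ⟨e1⟩ := ih _ t hl' h2
    have hlt : ∀ m : ℕ, m < 2 ^ 63 → m < 2 ^ 64 := fun m hm => hm.trans (by norm_num)
    obtain ⟨e2⟩ := star_homeo (deL l) (de r.1) 63 (de_ne h7 (hlt _ h5)) (by
      intro F hF
      obtain ⟨m, hm, rfl⟩ := mem_deL.1 hF
      exact not63 (hl m hm)) (not63 h5)
    obtain ⟨e3⟩ := star_homeo (deL (l.filter (fun m => !(le r.1 m)) ++
        nwB (l.filter (fun m => le r.1 m)) r.1 r.2)) (de r.2) 63 (de_ne h8 (hlt _ h6)) (by
      intro F hF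
      obtain ⟨m, hm, rfl⟩ := mem_deL.1 hF
      exact not63 (hl' m hm)) (not63 h6)
    have key : star (deL l) (de r.1) 63 = star (deL (l.filter (fun m => !(le r.1 m)) ++
        nwB (l.filter (fun m => le r.1 m)) r.1 r.2)) (de r.2) 63 := by
      rw [star_split (deL l), deL_append, star_union, ← deL_filter _ _ (hlt _ h5),
        ← deL_filter' _ _ (hlt _ h5), ← deL_stB _ _ h5, ← deL_stB _ _ h6, deL_of_sameB h3]
      intro F hF hF'
      obtain ⟨m, hm, rfl⟩ := mem_deL.1 hF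
      have := h0 m hm
      rw [(Pool.Agent.X161.CE.le_iff (hlt _ h6)).2 hF'] at this
      exact absurd this (by simp)
    rw [key] at e2
    exact ⟨e2.symm.trans (e3.trans e1)⟩

/-- the masks of the facets of the boundary of a simplex -/
def bdm (t : ℕ) : List ℕ := (bt t).map (fun z => t ^^^ 2 ^ z)

theorem deL_bdm (t : ℕ) : deL (bdm t) = bdS (de t) := by
  ext A
  rw [mem_deL, bdS, mem_image]
  constructor
  · rintro ⟨m, hm, rfl⟩
    obtain ⟨z, hz, rfl⟩ := List.mem_map.1 hm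
    rw [mem_bt] at hz
    exact ⟨z, hz, (de_xor hz).symm⟩
  · rintro ⟨z, hz, rfl⟩
    exact ⟨t ^^^ 2 ^ z, List.mem_map.2 ⟨z, mem_bt.2 hz, rfl⟩, de_xor hz⟩

theorem sphere_of {l : List ℕ} {ms : List (ℕ × ℕ)} {t d : ℕ} (h64 : n ≤ 63)
    (hl : ∀ m ∈ l, m < 2 ^ n) (ht : (bt t).length = d + 2) (h : chS l ms (bdm t) = true) :
    Nonempty ({x : Fin n → ℝ | (∀ i, 0 ≤ x i) ∧ ∑ i, x i = 1 ∧
      ∃ σ ∈ fm n l, ∀ i, x i ≠ 0 → i ∈ σ} ≃ₜ
      Metric.sphere (0 : EuclideanSpace ℝ (Fin (d + 1))) 1) := by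
  rw [realization_fm]
  obtain ⟨e1⟩ := fm_homeo (by omega) hl
  obtain ⟨e2⟩ := chS_homeo ms l (bdm t)
    (fun m hm => (hl m hm).trans_le (Nat.pow_le_pow_right (by norm_num) h64)) h
  rw [deL_bdm] at e2
  obtain ⟨e3⟩ := bdS_sphere (de t) (d + 1) (by omega) (by rw [de_card, ht])
  exact ⟨(e1.trans e2).trans e3⟩

end Pool.Agent.X161.CS
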